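import Pool.Agent.Zk81.Zeck.Descend

/-!
Bounds for the maximum order complexity of the Zeckendorf parity word.
-/

set_option autoImplicit false

namespace Pool.Agent.Zk81.Zeck

open Nat Pool.Agent.R577.FTM

/-- The `N`-th maximum order complexity. -/
noncomputable def maxOrder (u : ℕ → Bool) (N : ℕ) : ℕ :=
  sInf {k : ℕ | ∃ f : (Fin k → Bool) → Bool, ∀ i, i + k < N → u (i + k) = f fun t => u (i + t)}

theorem lt_maxOrder {u : ℕ → Bool} {i p k N : ℕ} (h : ∀ t < k, u (i + t) = u (p + t))
    (hne : u (i + k) ≠ u (p + k)) (hip : i < p) (hN : p + k < N) : k < maxOrder u N := by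
  have hmem : maxOrder u N ∈ {k : ℕ | ∃ f : (Fin k → Bool) → Bool,
      ∀ i, i + k < N → u (i + k) = f fun t => u (i + t)} := by
    apply Nat.sInf_mem
    exact ⟨N, fun _ => false, fun i hi => by omega⟩
  by_contra hk
  push Not at hk
  generalize maxOrder u N = m at hk hmem
  obtain ⟨f, hf⟩ := hmem
  have h1 := hf (i + (k - m)) (by omega)
  have h2 := hf (p + (k - m)) (by omega)
  have h3 : i + (k - m) + m = i + k := by omega
  have h4 : p + (k - m) + m = p + k := by omega
  rw [h3] at h1
  rw [h4] at h2
  apply hne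
  rw [h1, h2]
  congr 1
  funext t
  have h5 := h (k - m + t) (by omega)
  rw [← Nat.add_assoc, ← Nat.add_assoc] at h5
  exact h5

theorem maxOrder_le {u : ℕ → Bool} {m N : ℕ}
    (h : ∀ i p, i < p → p + m < N → (∀ t < m, u (i + t) = u (p + t)) → u (i + m) = u (p + m)) :
    maxOrder u N ≤ m := by
  apply Nat.sInf_le
  have hfac : Function.FactorsThrough (fun i : {i : ℕ // i + m < N} => u (i.1 + m))
      (fun i : {i : ℕ // i + m < N} => fun t : Fin m => u (i.1 + t)) := by
    rintro ⟨i, hi⟩ ⟨p, hp⟩ hip
    have h1 : ∀ t < m, u (i + t) = u (p + t) := fun t ht => congrFun hip ⟨t, ht⟩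
    rcases Nat.lt_trichotomy i p with h2 | h2 | h2
    · exact h i p h2 hp h1
    · subst h2; rfl
    · exact (h p i h2 hi fun t ht => (h1 t ht).symm).symm
  refine ⟨Function.extend (fun i : {i : ℕ // i + m < N} => fun t : Fin m => u (i.1 + t))
    (fun i : {i : ℕ // i + m < N} => u (i.1 + m)) (fun _ => false), fun i hi => ?_⟩
  exact (hfac.extend_apply (fun _ => false) ⟨i, hi⟩).symm


theorem phi_sq : Real.goldenRatio ^ 2 = Real.goldenRatio + 1 := Real.goldenRatio_sq

theorem phi_gt : (1.618 : ℝ) < Real.goldenRatio := by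
  have h := phi_sq
  have h1 := Real.one_lt_goldenRatio
  by_contra h2
  push Not at h2
  nlinarith

theorem phi_lt : Real.goldenRatio < (1.6181 : ℝ) := by
  have h := phi_sq
  have h1 := Real.one_lt_goldenRatio
  by_contra h2
  push Not at h2
  nlinarith

theorem g_bounds (n : ℕ) : Real.goldenRatio * n - (2 - Real.goldenRatio) ≤ g n ∧ (g n : ℝ) ≤ Real.goldenRatio * n + (Real.goldenRatio - 1) ∧
    (e n = false → (g n : ℝ) ≤ Real.goldenRatio * n + (2 * Real.goldenRatio - 3)) := by
  have hsq := phi_sq
  have h1 := phi_gt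
  have h2 := phi_lt
  induction n using Nat.strong_induction_on with
  | _ n ih =>
    rcases Nat.eq_zero_or_pos n with h0 | hpos
    · subst h0
      rw [g_zero]
      simp
      refine ⟨by linarith, by linarith, fun _ => by linarith⟩
    · rcases cases_n n with ⟨m, hm⟩ | ⟨m, hem, hm⟩
      · have hm0 : 0 < m := by
          rcases Nat.eq_zero_or_pos m with h | h
          · subst h; rw [g_zero] at hm; omega
          · exact h
        obtain ⟨i1, i2, -⟩ := ih m (by rw [hm]; exact g_gt hm0)
        have hg : (g n : ℝ) = g m + m := by rw [hm, g_g]; push_cast; ring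
        have hn : (n : ℝ) = g m := by rw [hm]
        have h3 : (g n : ℝ) - Real.goldenRatio * n = (1 - Real.goldenRatio) * (g m - Real.goldenRatio * m) := by
          rw [hg, hn]; linear_combination (-(m : ℝ)) * hsq
        have h4 : (g n : ℝ) ≤ Real.goldenRatio * n + (2 * Real.goldenRatio - 3) := by nlinarith
        refine ⟨by nlinarith, by linarith, fun _ => h4⟩
      · have hmn : m < n := by
          have := g_ge m
          omega
        obtain ⟨i1, i2, i3⟩ := ih m hmn
        have i4 := i3 hem
        have hg : (g n : ℝ) = g m + m + 2 := by rw [hm, g_g1 hem]; push_cast; ring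
        have hn : (n : ℝ) = g m + 1 := by rw [hm]; push_cast; ring
        have h3 : (g n : ℝ) - Real.goldenRatio * n = (1 - Real.goldenRatio) * (g m - Real.goldenRatio * m) + 2 - Real.goldenRatio := by
          rw [hg, hn]; linear_combination (-(m : ℝ)) * hsq
        refine ⟨by nlinarith, by nlinarith, fun h => ?_⟩
        rw [hm, e_g1 hem] at h
        exact absurd h (by simp)

theorem base_pair {i p k : ℕ} (hip : i < p) (h : Pair i p k) (hpk : p + k < 76) : k ≤ 13 := by
  by_contra hk
  push Not at hk
  have hlen : (W 9).length = 89 := by decide +kernel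
  have hx : ∀ n < 76, (W 9)[n]? = some (x n) := by
    intro n hn
    rw [List.getElem?_eq_getElem (by omega), x_W (n := 9) (by omega)]
  have hb := baseB_true
  unfold baseB at hb
  rw [List.all_eq_true] at hb
  have h1 := hb p (List.mem_range.2 (by omega))
  rw [List.all_eq_true] at h1
  have h2 := h1 i (List.mem_range.2 hip)
  rw [Bool.or_eq_true, Bool.not_eq_true', List.all_eq_true] at h2
  rcases h2 with h2 | h2
  · have h3 : ((List.range 14).all fun t => (W 9)[i + t]? == (W 9)[p + t]?) = true := by
      rw [List.all_eq_true]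
      intro t ht
      have ht' := List.mem_range.1 ht
      rw [hx _ (by omega), hx _ (by omega), h.1 t (by omega)]
      simp
    rw [h3] at h2
    exact absurd h2 (by simp)
  · have h3 := h2 k (List.mem_range.2 (by omega))
    rw [hx _ (by omega), hx _ (by omega)] at h3
    apply h.2
    simpa using h3

/-- The images of `76`. -/
def B (r : ℕ) : ℕ := g^[r] 76

theorem B_succ (r : ℕ) : B (r + 1) = g (B r) := by
  unfold B; rw [Function.iterate_succ_apply']

theorem pow_ge_one (r : ℕ) : (1 : ℝ) ≤ Real.goldenRatio ^ r := one_le_pow₀ Real.one_lt_goldenRatio.le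

theorem bound (r : ℕ) : ∀ i p k : ℕ, i < p → Pair i p k → p + k < B r →
    (k : ℝ) + 3 * Real.goldenRatio ≤ (13 + 3 * Real.goldenRatio) * Real.goldenRatio ^ r := by
  have hsq := phi_sq
  have h1 := phi_gt
  have h2 := phi_lt
  induction r with
  | zero =>
    intro i p k hip h hpk
    have : (k : ℝ) ≤ 13 := by exact_mod_cast base_pair hip h (by simpa [B] using hpk)
    simpa using this
  | succ r ih =>
    intro i p k hip h hpk
    rcases Nat.lt_or_ge k 2 with hk | hk
    · have hk' : (k : ℝ) ≤ 1 := by exact_mod_cast (by omega : k ≤ 1)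
      have := pow_ge_one (r + 1)
      nlinarith
    · obtain ⟨i', p', k', hip', h', hg, hkk⟩ := descend hip h hk
      rw [B_succ] at hpk
      have h3 := ih i' p' k' hip' h' (g_strictMono.lt_iff_lt.1 (by omega))
      have h4 := (g_bounds i').1
      have h5 := (g_bounds (i' + k')).2.1
      have h6 : (k : ℝ) + g i' ≤ g (i' + k') + 2 := by exact_mod_cast hkk
      push_cast at h5
      have h7 : (k : ℝ) ≤ Real.goldenRatio * k' + 3 := by linarith
      have h8 : Real.goldenRatio * ((k' : ℝ) + 3 * Real.goldenRatio) ≤ Real.goldenRatio * ((13 + 3 * Real.goldenRatio) * Real.goldenRatio ^ r) :=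
        mul_le_mul_of_nonneg_left h3 (by linarith)
      rw [pow_succ]
      nlinarith

theorem upper (r m : ℕ) (hm : (13 + 3 * Real.goldenRatio) * Real.goldenRatio ^ r < m) : maxOrder s (B r) ≤ m := by
  apply maxOrder_le
  intro i p hip hpm hag
  by_contra hne
  have h1 := phi_gt
  have h2 := pow_ge_one r
  have hm13 : 13 < m := by
    have : (13 : ℝ) < m := by nlinarith
    exact_mod_cast this
  have hxne : x (i + 1 + (m - 1)) ≠ x (p + 1 + (m - 1)) := by
    intro hx
    apply hne
    have := (x_eq hx).1
    rw [show i + 1 + (m - 1) = i + m by omega, show p + 1 + (m - 1) = p + m by omega] at this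
    exact this
  have hex : ∃ k, x (i + 1 + k) ≠ x (p + 1 + k) := ⟨m - 1, hxne⟩
  classical
  have hk1 := Nat.find_spec hex
  have hk2 : Nat.find hex ≤ m - 1 := Nat.find_min' hex hxne
  have hk3 : ∀ t < Nat.find hex, x (i + 1 + t) = x (p + 1 + t) := fun t ht => by
    have := Nat.find_min hex ht
    push Not at this
    exact this
  have hk4 : m - 3 ≤ Nat.find hex := by
    by_contra hlt
    push Not at hlt
    apply hk1
    have h5 := x_det (p := i + Nat.find hex) (q := p + Nat.find hex) (fun t ht => by
      have := hag (Nat.find hex + t) (by omega)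
      rw [← Nat.add_assoc, ← Nat.add_assoc] at this
      exact this)
    rw [show i + 1 + Nat.find hex = i + Nat.find hex + 1 by omega,
      show p + 1 + Nat.find hex = p + Nat.find hex + 1 by omega]
    exact h5
  have h6 := bound r (i + 1) (p + 1) (Nat.find hex) (by omega) ⟨hk3, hk1⟩ (by omega)
  have h7 : (m : ℝ) ≤ (Nat.find hex : ℝ) + 3 := by exact_mod_cast (by omega : m ≤ Nat.find hex + 3)
  linarith

theorem B_ge (r : ℕ) : 75 * Real.goldenRatio ^ r + (Real.goldenRatio - 1) ≤ (B r : ℝ) := by
  have hsq := phi_sq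
  have h1 := phi_gt
  have h2 := phi_lt
  induction r with
  | zero =>
    simp [B]
    linarith
  | succ r ih =>
    rw [B_succ, pow_succ]
    have h3 := (g_bounds (B r)).1
    nlinarith

theorem fib_zeck {j t : ℕ} (ht : t < fib (j + 1)) : s (fib (j + 2) + t) = !s t := by
  have hgf : greatestFib (fib (j + 2) + t) = j + 2 := by
    have h1 : greatestFib (fib (j + 2) + t) < j + 3 := by
      rw [greatestFib_lt]
      rw [show j + 3 = j + 1 + 2 by rfl, Nat.fib_add_two (n := j + 1)]
      show fib (j + 2) + t < fib (j + 1) + fib (j + 2)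
      omega
    have h2 : j + 2 ≤ greatestFib (fib (j + 2) + t) := by
      rw [le_greatestFib]; omega
    omega
  have hpos : 0 < fib (j + 2) := Nat.fib_pos.2 (by omega)
  have hz : Nat.zeckendorf (fib (j + 2) + t) = (j + 2) :: Nat.zeckendorf t := by
    rw [Nat.zeckendorf_of_pos (by omega), hgf, Nat.add_sub_cancel_left]
  unfold s
  rw [hz, List.length_cons]
  by_cases h : (Nat.zeckendorf t).length % 2 = 1
  · have h2 : ((Nat.zeckendorf t).length + 1) % 2 = 0 := by omega
    simp [h, h2]
  · have h2 : ((Nat.zeckendorf t).length + 1) % 2 = 1 := by omega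
    simp [h, h2]

theorem s_fib (j : ℕ) : s (fib (j + 2)) = true := by
  have h := fib_zeck (j := j) (t := 0) (Nat.fib_pos.2 (by omega))
  rw [Nat.add_zero, s_zero] at h
  simpa using h

theorem lower (j : ℕ) : fib (j + 2) < maxOrder s (fib (j + 4) + fib (j + 2) + 1) := by
  have e1 : fib (j + 4) = fib (j + 2) + fib (j + 3) := Nat.fib_add_two
  have e2 : fib (j + 3) = fib (j + 1) + fib (j + 2) := Nat.fib_add_two
  have hp : 0 < fib (j + 1) := Nat.fib_pos.2 (by omega)
  have hp2 : 0 < fib (j + 2) := Nat.fib_pos.2 (by omega)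
  refine lt_maxOrder (i := fib (j + 3)) (p := fib (j + 4)) ?_ ?_ (by omega) (by omega)
  · intro t ht
    rw [fib_zeck (j := j + 1) (t := t) (by show t < fib (j + 2); omega),
      fib_zeck (j := j + 2) (t := t) (by show t < fib (j + 3); omega)]
  · rw [fib_zeck (j := j + 2) (t := fib (j + 2)) (by show fib (j + 2) < fib (j + 3); omega)]
    have h3 : fib (j + 3) + fib (j + 2) = fib (j + 2 + 2) := by
      show _ = fib (j + 4)
      omega
    rw [h3, s_fib, s_fib]
    simp

end Pool.Agent.Zk81.Zeck
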