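import Pool.Agent.Zk81.Zeck.Word

/-!
The descent along the substitution for pairs of occurrences with a first mismatch.
-/

set_option autoImplicit false

namespace Pool.Agent.Zk81.Zeck

open Nat Pool.Agent.R577.FTM

/-- Agreement on `k` letters followed by a mismatch. -/
def Pair (i p k : ℕ) : Prop := (∀ t < k, x (i + t) = x (p + t)) ∧ x (i + k) ≠ x (p + k)

theorem e_succ {n : ℕ} (h : e n = true) : e (n + 1) = false := by
  obtain ⟨m, hem, hm⟩ := (e_true_iff n).1 h
  have h1 := g_succ m
  rw [hem] at h1
  simp only [Bool.false_eq_true, if_false] at h1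
  rw [hm, show g m + 1 + 1 = g (m + 1) by omega, e_g]

theorem e_g_succ (n : ℕ) : e (g n + 1) = !e n := by
  cases h : e n with
  | false => rw [e_g1 h]; rfl
  | true =>
    have h1 := g_succ n
    rw [h] at h1
    simp only [if_true] at h1
    rw [← h1, e_g]; rfl

theorem x_eq {m n : ℕ} (h : x m = x n) : s m = s n ∧ e m = e n := by
  unfold x at h
  exact ⟨(Prod.mk.inj h).1, (Prod.mk.inj h).2⟩

theorem start {i p k : ℕ} (h : Pair i p k) (hk : 2 ≤ k) :
    ∃ a i' p', a ≤ 1 ∧ i + a = g i' ∧ p + a = g p' := by
  have h0 := x_eq (h.1 0 (by omega))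
  rw [Nat.add_zero, Nat.add_zero] at h0
  cases he : e i with
  | false =>
    obtain ⟨i', hi'⟩ := (e_false_iff i).1 he
    obtain ⟨p', hp'⟩ := (e_false_iff p).1 (h0.2 ▸ he)
    exact ⟨0, i', p', by omega, hi', hp'⟩
  | true =>
    obtain ⟨i', hi'⟩ := (e_false_iff _).1 (e_succ he)
    obtain ⟨p', hp'⟩ := (e_false_iff _).1 (e_succ (h0.2 ▸ he))
    exact ⟨1, i', p', by omega, hi', hp'⟩

theorem finish {i p k : ℕ} (h : Pair i p k) (hk : 2 ≤ k) :
    ∃ b I P, b ≤ 1 ∧ i + k = g I + b ∧ p + k = g P + b ∧ x I ≠ x P ∧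
      (b = 0 → e (p + k) = false) := by
  obtain ⟨h1, h2⟩ := h
  have hprev := x_eq (h1 (k - 1) (by omega))
  cases hI : e (i + k) with
  | false =>
    obtain ⟨I, hI'⟩ := (e_false_iff _).1 hI
    cases hP : e (p + k) with
    | false =>
      obtain ⟨P, hP'⟩ := (e_false_iff _).1 hP
      refine ⟨0, I, P, by omega, hI', hP', ?_, fun _ => rfl⟩
      intro hx
      apply h2
      rw [hI', hP']
      unfold x
      rw [s_g, s_g, e_g, e_g, (x_eq hx).1]
    | true =>
      obtain ⟨P, heP, hP'⟩ := (e_true_iff _).1 hP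
      have h3 : p + (k - 1) = g P := by omega
      rw [h3, e_g] at hprev
      obtain ⟨I', hI''⟩ := (e_false_iff _).1 hprev.2
      have h4 : i + k = g I' + 1 := by omega
      refine ⟨1, I', P, le_rfl, h4, hP', ?_, by omega⟩
      intro hx
      have h5 := (x_eq hx).2
      rw [h4, e_g_succ, h5, heP] at hI
      exact absurd hI (by simp)
  | true =>
    obtain ⟨I, heI, hI'⟩ := (e_true_iff _).1 hI
    have h3 : i + (k - 1) = g I := by omega
    rw [h3, e_g] at hprev
    obtain ⟨P, hP'⟩ := (e_false_iff _).1 hprev.2.symm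
    have h4 : p + k = g P + 1 := by omega
    refine ⟨1, I, P, le_rfl, hI', h4, ?_, by omega⟩
    intro hx
    apply h2
    have h5 := x_eq hx
    have heP : e P = false := by rw [← h5.2, heI]
    rw [hI', h4]
    unfold x
    rw [s_g1 heI, s_g1 heP, e_g1 heI, e_g1 heP, h5.1]

theorem descend {i p k : ℕ} (hip : i < p) (h : Pair i p k) (hk : 2 ≤ k) :
    ∃ i' p' k', i' < p' ∧ Pair i' p' k' ∧ g (p' + k') ≤ p + k ∧ k + g i' ≤ g (i' + k') + 2 := by
  obtain ⟨a, i', p', ha, hi', hp'⟩ := start h hk
  obtain ⟨b, I, P, hb, hI, hP, hne, hb0⟩ := finish h hk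
  have hiI : i' ≤ I := g_strictMono.le_iff_le.1 (by omega)
  have key : ∀ t, i' + t ≤ I → g (i' + t) + p = g (p' + t) + i ∧
      ∀ t' < t, x (i' + t') = x (p' + t') := by
    intro t
    induction t with
    | zero =>
      intro _
      refine ⟨by simp only [Nat.add_zero]; omega, fun t' ht' => by omega⟩
    | succ t ih =>
      intro ht
      obtain ⟨h1, h2⟩ := ih (by omega)
      have hgi : g i' ≤ g (i' + t) := g_strictMono.monotone (by omega)
      have hlt : g (i' + t) < g I := g_strictMono (by omega)
      have hle : g (i' + t + 1) ≤ g I := g_strictMono.monotone (by omega)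
      obtain ⟨u, hu⟩ : ∃ u, g (i' + t) = i + u := ⟨g (i' + t) - i, by omega⟩
      have hu' : g (p' + t) = p + u := by omega
      have hx := x_eq (h.1 u (by omega))
      rw [← hu, ← hu', s_g, s_g] at hx
      have hgs := g_succ (i' + t)
      have hgs' := g_succ (p' + t)
      have hee : e (i' + t) = e (p' + t) := by
        by_cases hu1 : u + 1 < k
        · have hx1 := (x_eq (h.1 (u + 1) hu1)).2
          rw [← Nat.add_assoc, ← Nat.add_assoc, ← hu, ← hu', e_g_succ, e_g_succ] at hx1
          simpa using hx1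
        · cases he : e (i' + t) with
          | false =>
            rw [he] at hgs
            simp only [Bool.false_eq_true, if_false] at hgs
            omega
          | true =>
            rw [he] at hgs
            simp only [if_true] at hgs
            have hb00 : b = 0 := by omega
            have h5 := hb0 hb00
            have h6 : p + k = g (p' + t) + 1 := by omega
            rw [h6, e_g_succ] at h5
            simpa using h5.symm
      have hxx : x (i' + t) = x (p' + t) := by
        unfold x
        rw [hx.1, hee]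
      refine ⟨?_, ?_⟩
      · rw [← Nat.add_assoc, ← Nat.add_assoc, hgs, hgs', hee]
        omega
      · intro t' ht'
        rcases Nat.lt_succ_iff_lt_or_eq.1 ht' with h7 | h7
        · exact h2 t' h7
        · rw [h7]; exact hxx
  obtain ⟨h1, h2⟩ := key (I - i') (by omega)
  have hII : i' + (I - i') = I := by omega
  have hPP : p' + (I - i') = P := by
    apply g_strictMono.injective
    rw [hII] at h1
    omega
  refine ⟨i', p', I - i', ?_, ⟨h2, ?_⟩, ?_, ?_⟩
  · exact g_strictMono.lt_iff_lt.1 (by omega)
  · rw [hII, hPP]; exact hne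
  · rw [hPP]; omega
  · rw [hII]; omega

end Pool.Agent.Zk81.Zeck
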