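import Pool.Agent.R577.FTM.Zeck

/-!
The shift `g` of the Zeckendorf representation, and the letters of the Zeckendorf parity word.
-/

set_option autoImplicit false

namespace Pool.Agent.Zk81.Zeck

open Nat Pool.Agent.R577.FTM

/-- The parity of the number of Zeckendorf digits. -/
def s (n : ℕ) : Bool := decide ((Nat.zeckendorf n).length % 2 = 1)

/-- The last Zeckendorf digit. -/
def e (n : ℕ) : Bool := decide (2 ∈ Nat.zeckendorf n)

/-- The shift of the Zeckendorf representation. -/
def g (n : ℕ) : ℕ := ((Nat.zeckendorf n).map fun a => fib (a + 1)).sum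

/-- The letter at position `n`. -/
def x (n : ℕ) : Bool × Bool := (s n, e n)

theorem rep_map (l : List ℕ) (h : l.IsZeckendorfRep) : (l.map (· + 1)).IsZeckendorfRep := by
  rw [rep_iff] at h ⊢
  constructor
  · rw [List.pairwise_map]
    exact h.1.imp (fun hab => by omega)
  · intro a ha
    obtain ⟨b, hb, rfl⟩ := List.mem_map.1 ha
    have := h.2 b hb
    omega

theorem zeck_g (n : ℕ) : Nat.zeckendorf (g n) = (Nat.zeckendorf n).map (· + 1) := by
  have h := Nat.zeckendorf_sum_fib (rep_map _ (Nat.isZeckendorfRep_zeckendorf n))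
  rw [List.map_map] at h
  exact h

theorem zeck_g1 {n : ℕ} (he : e n = false) :
    Nat.zeckendorf (g n + 1) = (Nat.zeckendorf n).map (· + 1) ++ [2] := by
  have h : ((Nat.zeckendorf n).map (· + 1) ++ [2]).IsZeckendorfRep := by
    have h1 := rep_map _ (Nat.isZeckendorfRep_zeckendorf n)
    rw [rep_iff] at h1 ⊢
    constructor
    · rw [List.pairwise_append]
      refine ⟨h1.1, List.pairwise_singleton _ _, ?_⟩
      intro a ha b hb
      rw [List.mem_singleton] at hb
      obtain ⟨c, hc, rfl⟩ := List.mem_map.1 ha
      have h2 := zeck_two_le hc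
      have h3 : c ≠ 2 := by
        rintro rfl
        unfold e at he
        simp [hc] at he
      omega
    · intro a ha
      rcases List.mem_append.1 ha with ha | ha
      · exact h1.2 a ha
      · rw [List.mem_singleton] at ha; omega
  have h2 := Nat.zeckendorf_sum_fib h
  rw [List.map_append, List.sum_append, List.map_map] at h2
  have h3 : (List.map (fib ∘ (· + 1)) (Nat.zeckendorf n)).sum + (List.map fib [2]).sum =
      g n + 1 := rfl
  rw [h3] at h2
  exact h2

theorem s_g (n : ℕ) : s (g n) = s n := by
  unfold s; rw [zeck_g, List.length_map]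

theorem e_g (n : ℕ) : e (g n) = false := by
  unfold e
  rw [zeck_g, decide_eq_false_iff_not]
  intro h
  obtain ⟨c, hc, hc2⟩ := List.mem_map.1 h
  have := zeck_two_le hc
  omega

theorem s_g1 {n : ℕ} (he : e n = false) : s (g n + 1) = !s n := by
  unfold s
  rw [zeck_g1 he, List.length_append, List.length_map, List.length_singleton]
  by_cases h : (Nat.zeckendorf n).length % 2 = 1
  · have h2 : ((Nat.zeckendorf n).length + 1) % 2 = 0 := by omega
    simp [h, h2]
  · have h2 : ((Nat.zeckendorf n).length + 1) % 2 = 1 := by omega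
    simp [h, h2]

theorem e_g1 {n : ℕ} (he : e n = false) : e (g n + 1) = true := by
  unfold e
  rw [zeck_g1 he]
  simp

theorem g_g (n : ℕ) : g (g n) = g n + n := by
  show ((Nat.zeckendorf (g n)).map fun a => fib (a + 1)).sum = _
  rw [zeck_g, List.map_map]
  have h1 : (fun a => fib (a + 1)) ∘ (fun a => a + 1) = fun a => fib (a + 1) + fib a := by
    funext a
    simp only [Function.comp_apply]
    rw [Nat.fib_add_two, Nat.add_comm]
  have h2 : ((Nat.zeckendorf n).map (fun a => fib (a + 1) + fib a)).sum =
      ((Nat.zeckendorf n).map fun a => fib (a + 1)).sum + ((Nat.zeckendorf n).map fib).sum :=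
    List.sum_map_add
  rw [h1, h2, Nat.sum_zeckendorf_fib]
  rfl

theorem g_g1 {n : ℕ} (he : e n = false) : g (g n + 1) = g n + n + 2 := by
  have h0 : ((Nat.zeckendorf (g n)).map fun a => fib (a + 1)).sum = g n + n := g_g n
  show ((Nat.zeckendorf (g n + 1)).map fun a => fib (a + 1)).sum = _
  rw [zeck_g] at h0
  rw [zeck_g1 he, List.map_append, List.sum_append, h0]
  rfl

theorem g_zero : g 0 = 0 := by simp [g]

theorem g_ge (n : ℕ) : n ≤ g n := by
  conv_lhs => rw [← Nat.sum_zeckendorf_fib n]
  unfold g
  apply List.sum_le_sum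
  intro a _
  exact Nat.fib_mono (Nat.le_succ a)

theorem g_gt {n : ℕ} (hn : 0 < n) : n < g n := by
  rcases (g_ge n).lt_or_eq with h | h
  · exact h
  · have h1 := g_g n
    rw [← h, ← h] at h1
    omega

theorem exists_g {H : ℕ} (hH : Dig 3 H) : ∃ m, H = g m ∧ (Dig 4 H → e m = false) := by
  set l := (Nat.zeckendorf H).map (· - 1) with hl
  have hrep : l.IsZeckendorfRep := by
    rw [rep_iff]
    constructor
    · rw [hl, List.pairwise_map]
      exact (zeck_pairwise H).imp_of_mem (fun {a b} ha hb hab => by
        have := hH b hb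
        omega)
    · intro a ha
      obtain ⟨b, hb, rfl⟩ := List.mem_map.1 ha
      have := hH b hb
      omega
  have hz := Nat.zeckendorf_sum_fib hrep
  have hback : l.map (· + 1) = Nat.zeckendorf H := by
    rw [hl, List.map_map]
    conv_rhs => rw [← List.map_id (Nat.zeckendorf H)]
    apply List.map_congr_left
    intro a ha
    have := hH a ha
    simp only [Function.comp_apply, id]
    omega
  refine ⟨(l.map fib).sum, ?_, ?_⟩
  · have h1 := zeck_g (l.map fib).sum
    rw [hz, hback] at h1
    have h2 := Nat.sum_zeckendorf_fib H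
    have h3 := Nat.sum_zeckendorf_fib (g (l.map fib).sum)
    rw [h1] at h3
    omega
  · intro h4
    unfold e
    rw [hz, decide_eq_false_iff_not]
    intro h
    obtain ⟨b, hb, hb2⟩ := List.mem_map.1 h
    have := h4 b hb
    omega

theorem cases_n (n : ℕ) : (∃ m, n = g m) ∨ (∃ m, e m = false ∧ n = g m + 1) := by
  obtain ⟨H, G, hN, hH, hG, -, h4, h5, h6⟩ := exists_split n 2 le_rfl
  obtain ⟨m, hm, hm4⟩ := exists_g hH
  by_cases h2 : 2 ∈ Nat.zeckendorf n
  · right
    obtain ⟨G', hG', hG1, -⟩ := h5 h2
    have e1 : fib (2 - 1) = 1 := rfl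
    have e2 : fib 2 = 1 := rfl
    refine ⟨m, hm4 (h4 h2), ?_⟩
    omega
  · left
    have := h6 h2
    have e2 : fib 2 = 1 := rfl
    exact ⟨m, by omega⟩

theorem g_succ (n : ℕ) : g (n + 1) = g n + (if e n then 1 else 2) := by
  induction n using Nat.strong_induction_on with
  | _ n ih =>
    rcases cases_n n with ⟨m, hm⟩ | ⟨m, hem, hm⟩
    · have hen : e n = false := by rw [hm, e_g]
      rw [hen]
      by_cases hem : e m = true
      · have hm0 : 0 < m := by
          rcases Nat.eq_zero_or_pos m with h | h
          · subst h; simp [e] at hem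
          · exact h
        have h1 := ih m (by rw [hm]; exact g_gt hm0)
        rw [hem] at h1
        simp only [if_true] at h1
        rw [hm, ← h1, g_g, g_g, h1]
        simp
        omega
      · have hem' : e m = false := by simpa using hem
        rw [hm, g_g1 hem', g_g]
        simp
    · have hen : e n = true := by rw [hm, e_g1 hem]
      rw [hen]
      have hmn : m < n := by
        have := g_ge m
        omega
      have h1 := ih m hmn
      rw [hem] at h1
      simp only [Bool.false_eq_true, if_false] at h1
      have h2 : n + 1 = g (m + 1) := by omega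
      rw [h2, g_g, hm, g_g1 hem]
      simp only [if_true]
      omega

theorem g_strictMono : StrictMono g := by
  apply strictMono_nat_of_lt_succ
  intro n
  rw [g_succ]
  split_ifs <;> omega

theorem e_false_iff (n : ℕ) : e n = false ↔ ∃ m, n = g m := by
  constructor
  · intro h
    rcases cases_n n with h1 | ⟨m, hem, hm⟩
    · exact h1
    · rw [hm, e_g1 hem] at h
      exact absurd h (by simp)
  · rintro ⟨m, rfl⟩
    exact e_g m

theorem e_true_iff (n : ℕ) : e n = true ↔ ∃ m, e m = false ∧ n = g m + 1 := by
  constructor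
  · intro h
    rcases cases_n n with ⟨m, hm⟩ | h1
    · rw [hm, e_g m] at h
      exact absurd h (by simp)
    · exact h1
  · rintro ⟨m, hem, rfl⟩
    exact e_g1 hem

theorem e_zero : e 0 = false := by simp [e]

theorem s_zero : s 0 = false := by simp [s]

end Pool.Agent.Zk81.Zeck
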