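import Pool.Agent.Zk81.Zeck.Shift

/-!
Words of the Zeckendorf parity letters: the substitution, the words of length four, the first
76 letters.
-/

set_option autoImplicit false

namespace Pool.Agent.Zk81.Zeck

open Nat Pool.Agent.R577.FTM

/-- The substitution. -/
def sub : Bool × Bool → List (Bool × Bool)
  | (a, false) => [(a, false), (!a, true)]
  | (a, true) => [(a, false)]

/-- The factor of length `l` at position `a`. -/
def word (a l : ℕ) : List (Bool × Bool) := (List.range l).map fun t => x (a + t)

theorem word_length (a l : ℕ) : (word a l).length = l := by simp [word]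

theorem word_succ (a l : ℕ) : word a (l + 1) = word a l ++ [x (a + l)] := by
  simp [word, List.range_succ]

theorem word_sub (a l : ℕ) : word (g a) (g (a + l) - g a) = (word a l).flatMap sub := by
  induction l with
  | zero => simp [word]
  | succ l ih =>
    have h1 : g a ≤ g (a + l) := g_strictMono.monotone (by omega)
    have h2 := g_succ (a + l)
    rw [word_succ, List.flatMap_append, ← ih, ← Nat.add_assoc]
    cases he : e (a + l) with
    | true =>
      rw [he] at h2
      simp only [if_true] at h2
      have h3 : g (a + l + 1) - g a = (g (a + l) - g a) + 1 := by omega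
      have h4 : g a + (g (a + l) - g a) = g (a + l) := by omega
      rw [h3, word_succ, h4]
      congr 1
      simp [x, sub, he, s_g, e_g]
    | false =>
      rw [he] at h2
      simp only [Bool.false_eq_true, if_false] at h2
      have h3 : g (a + l + 1) - g a = (g (a + l) - g a) + 1 + 1 := by omega
      have h4 : g a + (g (a + l) - g a) = g (a + l) := by omega
      have h5 : g a + (g (a + l) - g a + 1) = g (a + l) + 1 := by omega
      rw [h3, word_succ, word_succ, h4, h5, List.append_assoc]
      congr 1
      simp [x, sub, he, s_g, e_g, s_g1 he, e_g1 he]

/-- The prefixes. -/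
def W : ℕ → List (Bool × Bool)
  | 0 => [(false, false)]
  | n + 1 => (W n).flatMap sub

theorem word_W (n : ℕ) : word 0 (W n).length = W n := by
  induction n with
  | zero => simp [W, word, x, s_zero, e_zero]
  | succ n ih =>
    have h := word_sub 0 (W n).length
    rw [Nat.zero_add, ih, g_zero, Nat.sub_zero] at h
    have h1 : g (W n).length = (W (n + 1)).length := by
      have := congrArg List.length h
      rw [word_length] at this
      exact this
    rw [← h1]
    exact h

theorem x_W {n i : ℕ} (hi : i < (W n).length) : x i = (W n)[i] := by
  have h := word_W n
  have h2 : (word 0 (W n).length)[i]'(by rw [word_length]; exact hi) = (W n)[i] := by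
    simp only [h]
  rw [← h2]
  simp [word]

/-- The list of the factors of length four. -/
def F4 : List (List (Bool × Bool)) :=
  ((List.range 50).map fun a => ((W 9).drop a).take 4)

theorem F4_closed : ∀ w ∈ F4, (((w.flatMap sub).drop 0).take 4 ∈ F4) ∧
    (w.head?.map Prod.snd = some false → ((w.flatMap sub).drop 1).take 4 ∈ F4) := by
  decide +kernel

theorem F4_len : ∀ w ∈ F4, w.length = 4 ∧ 5 ≤ (w.flatMap sub).length := by
  decide +kernel

theorem F4_det : ∀ w ∈ F4, ∀ v ∈ F4, w.map Prod.fst = v.map Prod.fst → w[1]? = v[1]? := by
  decide +kernel

theorem word_drop (a l d m : ℕ) (h : d + m ≤ l) : ((word a l).drop d).take m = word (a + d) m := by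
  apply List.ext_getElem
  · simp [word]; omega
  · intro i h1 h2
    simp [word, Nat.add_assoc]

theorem word_mem (n : ℕ) : word n 4 ∈ F4 := by
  induction n using Nat.strong_induction_on with
  | _ n ih =>
    rcases Nat.eq_zero_or_pos n with h0 | hpos
    · subst h0
      have h := word_W 9
      have h1 := word_drop 0 (W 9).length 0 4 (by decide +kernel)
      rw [h] at h1
      rw [← h1]
      decide +kernel
    · rcases cases_n n with ⟨m, hm⟩ | ⟨m, hem, hm⟩
      · have hm0 : 0 < m := by
          rcases Nat.eq_zero_or_pos m with h | h
          · subst h; rw [g_zero] at hm; omega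
          · exact h
        have h1 := ih m (by rw [hm]; exact g_gt hm0)
        have h2 := word_sub m 4
        have h3 := (F4_len _ h1).2
        rw [← h2, word_length] at h3
        have h4 := word_drop (g m) (g (m + 4) - g m) 0 4 (by omega)
        rw [h2] at h4
        rw [hm, ← Nat.add_zero (g m), ← h4]
        exact (F4_closed _ h1).1
      · have hmn : m < n := by
          have := g_ge m
          omega
        have h1 := ih m hmn
        have h2 := word_sub m 4
        have h3 := (F4_len _ h1).2
        rw [← h2, word_length] at h3
        have h4 := word_drop (g m) (g (m + 4) - g m) 1 4 (by omega)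
        rw [h2] at h4
        rw [hm, ← h4]
        apply (F4_closed _ h1).2
        simp [word, x, hem, List.range_succ]

theorem x_det {p q : ℕ} (h : ∀ t < 4, s (p + t) = s (q + t)) : x (p + 1) = x (q + 1) := by
  have h1 := F4_det _ (word_mem p) _ (word_mem q) (by
    unfold word
    rw [List.map_map, List.map_map]
    apply List.map_congr_left
    intro t ht
    exact h t (List.mem_range.1 ht))
  simpa [word, List.range_succ] using h1

/-- The base check. -/
def baseB : Bool :=
  (List.range 62).all fun p => (List.range p).all fun i =>
    !((List.range 14).all fun t => (W 9)[i + t]? == (W 9)[p + t]?) ||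
      ((List.range (76 - p)).all fun t => (W 9)[i + t]? == (W 9)[p + t]?)

theorem baseB_true : baseB = true := by decide +kernel

end Pool.Agent.Zk81.Zeck
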